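import Pool.Agent.N804.PV.DefW

set_option autoImplicit false

/-! # PX/3: slow variation of the prime variance -/

namespace Pool.Agent.N372.PX3

open Filter Topology Set MeasureTheory
open Pool.Agent.N804 (SC)
open Pool.Agent.N804.PV

/-- a smooth step from `0` (left of `a`) to `1` (right of `b`) -/
noncomputable def sst (a b x : ℝ) : ℝ := Real.smoothTransition ((x - a) / (b - a))

lemma sst_sm (a b : ℝ) : ContDiff ℝ (⊤ : ℕ∞) (sst a b) := by
  unfold sst
  exact Real.smoothTransition.contDiff.comp ((contDiff_id.sub contDiff_const).div_const _)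

lemma sst_zero {a b x : ℝ} (hab : a < b) (hx : x ≤ a) : sst a b x = 0 :=
  Real.smoothTransition.zero_of_nonpos (div_nonpos_of_nonpos_of_nonneg (by linarith) (by linarith))

lemma sst_one {a b x : ℝ} (hab : a < b) (hx : b ≤ x) : sst a b x = 1 := by
  refine Real.smoothTransition.one_of_one_le ?_
  rw [le_div_iff₀ (by linarith)]
  linarith

lemma sst_nonneg (a b x : ℝ) : 0 ≤ sst a b x := Real.smoothTransition.nonneg _

/-- a bump around `0`, equal to `1` on `[-A, A]` -/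
noncomputable def big (A : ℝ) (hA : 0 < A) : ContDiffBump (0 : ℝ) := ⟨A, A + 1, hA, by linarith⟩

lemma big_SC {A : ℝ} (hA : 0 < A) : SC (big A hA) :=
  ⟨(big A hA).contDiff, (big A hA).hasCompactSupport⟩

lemma big_one {A : ℝ} (hA : 0 < A) {x : ℝ} (hx : |x| ≤ A) : big A hA x = 1 := by
  refine (big A hA).one_of_mem_closedBall ?_
  rw [mem_closedBall_zero_iff, Real.norm_eq_abs]
  exact hx

lemma supp {r : ℝ → ℝ} (H : SC r) : ∃ κ : ℝ, 0 < κ ∧ ∀ α, κ < |α| → r α = 0 := by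
  obtain ⟨κ, hκ⟩ := H.cs.isCompact.isBounded.subset_closedBall 0
  refine ⟨max κ 1, by positivity, fun α hα => ?_⟩
  by_contra hne
  have h1 : α ∈ tsupport r := subset_tsupport r hne
  have h2 := hκ h1
  rw [mem_closedBall_zero_iff, Real.norm_eq_abs] at h2
  have := le_max_left κ 1
  linarith

lemma mulS {r s : ℝ → ℝ} (H : SC r) (H' : ContDiff ℝ (⊤ : ℕ∞) s) : SC (fun α => r α * s α) :=
  ⟨H.sm.mul H', H.cs.mul_right⟩

lemma DTint {T : ℝ} (hT : 1 < T) {f : ℝ → ℝ} (hf : Measurable f) {K A : ℝ} (hK : ∀ y, |f y| ≤ K)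
    (hA : ∀ y, A < |y| → f y = 0) : Integrable fun y => f y * DT T y ^ 2 := by
  obtain ⟨C, hC⟩ := DT_bd hT A
  have h1 : IntegrableOn (fun y => f y * DT T y ^ 2) (Icc (-A) A) := by
    refine Measure.integrableOn_of_bounded (M := K * C ^ 2) (by simp) ?_ ?_
    · exact (hf.mul ((DT_meas T).pow_const 2)).aestronglyMeasurable
    · refine (ae_restrict_mem measurableSet_Icc).mono fun x hx => ?_
      have h2 := hC x (abs_le.2 hx)
      rw [norm_mul, Real.norm_eq_abs, Real.norm_eq_abs, abs_of_nonneg (sq_nonneg (DT T x))]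
      have h3 : DT T x ^ 2 ≤ C ^ 2 := by
        rw [← sq_abs]
        exact pow_le_pow_left₀ (abs_nonneg _) h2 2
      have h4 := hK x
      have h5 := (abs_nonneg (f x)).trans h4
      gcongr
  rw [← integrable_indicator_iff measurableSet_Icc] at h1
  refine h1.congr (ae_of_all _ fun y => ?_)
  by_cases h : y ∈ Icc (-A) A
  · simp only [indicator_of_mem h]
  · simp only [indicator_of_notMem h]
    rw [hA y, zero_mul]
    by_contra hcon
    exact h (abs_le.1 (not_lt.1 hcon))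

lemma key {T T1 : ℝ} (hT : 1 < T) (h : T < T1) (y : ℝ) :
    (DT T1 y - DT T y) ^ 2 =
      (1 + 1 / T1) * DT ((T1 + 1) * T / (T1 - T)) (y + Real.log (1 + 1 / T1)) ^ 2 := by
  have hT0 : 0 < T := by linarith
  have hT1 : 0 < T1 := by linarith
  have hd : 0 < T1 - T := by linarith
  have hc : 0 < 1 + 1 / T1 := by positivity
  have e1 : Real.exp (y + Real.log (1 + 1 / T1)) = Real.exp y * (1 + 1 / T1) := by
    rw [Real.exp_add, Real.exp_log hc]
  have e2 : Real.exp y * (1 + 1 / T1) * (1 + 1 / ((T1 + 1) * T / (T1 - T))) =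
      Real.exp y * (1 + 1 / T) := by
    field_simp
    ring
  have e3 : Real.exp y * (1 + 1 / T1) / ((T1 + 1) * T / (T1 - T)) =
      Real.exp y / T - Real.exp y / T1 := by
    field_simp
  have e4 : (1 + 1 / T1) * Real.exp (-((y + Real.log (1 + 1 / T1)) / 2)) ^ 2 =
      Real.exp (-(y / 2)) ^ 2 := by
    rw [← Real.exp_nat_mul, ← Real.exp_nat_mul]
    have : ((2 : ℕ) : ℝ) * -((y + Real.log (1 + 1 / T1)) / 2) =
        ((2 : ℕ) : ℝ) * -(y / 2) - Real.log (1 + 1 / T1) := by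
      push_cast
      ring
    rw [this, Real.exp_sub, Real.exp_log hc]
    field_simp
  unfold DT
  rw [e1, e2, e3, mul_pow (Real.exp (-((y + Real.log (1 + 1 / T1)) / 2))), ← mul_assoc, e4]
  ring

lemma q_a {η T T1 : ℝ} (hη : 0 < η) (hT : 0 < T) (h : (1 + η) * T ≤ T1) : T < T1 := by
  nlinarith [mul_pos hη hT]

lemma q_b {s η : ℝ} (h0 : 0 < s) (h : s ^ 2 = η) (h4 : η ≤ 1 / 4) : s ≤ 1 := by nlinarith

lemma q_c {T T1 : ℝ} (hT : 0 < T) : T * (T1 - T) ≤ (T1 + 1) * T := by nlinarith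

lemma q_d {η T T1 : ℝ} (h4 : T1 ≤ (1 + 2 * η) * T) (hη : η ≤ 1 / 4) (hT : 3 ≤ T) :
    T1 + 1 ≤ 2 * T := by nlinarith

lemma q_e {η : ℝ} (hη : 0 < η) (h4 : η ≤ 1 / 4) : (1 + 2 * η) * η ≤ 2 := by nlinarith

lemma q_f {a b l y : ℝ} (ha : 0 ≤ a) (hl : 0 < l) (h : (a + b) * l < y) : b * l < y := by
  nlinarith [mul_nonneg ha hl.le]

lemma q_g {η T T1 : ℝ} (hη : 0 < η) (h4 : η ≤ 1 / 4) (hT : 0 < T) (h : T1 ≤ (1 + 2 * η) * T) :
    (1 - 2 * η) * T1 ≤ T := by
  have h1 : (1 - 2 * η) * T1 ≤ (1 - 2 * η) * ((1 + 2 * η) * T) :=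
    mul_le_mul_of_nonneg_left h (by linarith)
  have h2 : 0 ≤ η ^ 2 * T := by positivity
  linarith

lemma q_h1 {r : ℝ} (h : 1 ≤ r) : 1 ≤ r ^ 2 := by nlinarith

lemma q_h2 {r ρ η : ℝ} (h : 1 ≤ r) (h2 : r ≤ 1 + ρ) (hρ : ρ ≤ η) (h4 : η ≤ 1 / 4) (h0 : 0 < ρ) :
    r ^ 2 ≤ 1 + 3 * η := by
  have : r ^ 2 ≤ (1 + ρ) ^ 2 := pow_le_pow_left₀ (by linarith) h2 2
  nlinarith

lemma q_i1 {η q R : ℝ} (hη : 0 < η) (q1 : q ≤ 1) (q2 : 1 - 2 * η ≤ q) (hq : 0 < q) (R1 : 1 ≤ R)
    (R2 : R ≤ 1 + 3 * η) : -(5 * η) ≤ 1 - q * R := by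
  have : q * R ≤ 1 * (1 + 3 * η) := mul_le_mul q1 R2 (by linarith) (by norm_num)
  linarith

lemma q_i2 {η q R : ℝ} (hη : 0 < η) (q2 : 1 - 2 * η ≤ q) (hq : 0 < q) (R1 : 1 ≤ R) :
    1 - q * R ≤ 5 * η := by
  have : q * 1 ≤ q * R := mul_le_mul_of_nonneg_left R1 hq.le
  linarith

lemma q_j1 {A0 A1 L L1 ρ y : ℝ} (hA : 0 < A0) (hL : 0 < L) (h1 : A1 * L < y)
    (h2 : L1 ≤ (1 + ρ) * L) (h3 : (1 + ρ) * A0 ≤ A1) : A0 * L1 ≤ y := by
  have e1 : A0 * L1 ≤ A0 * ((1 + ρ) * L) := mul_le_mul_of_nonneg_left h2 hA.le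
  have e2 : (1 + ρ) * A0 * L ≤ A1 * L := mul_le_mul_of_nonneg_right h3 hL.le
  linarith

lemma q_j2 {A2 L L1 y : ℝ} (hA : 0 < A2) (h1 : y ≤ A2 * L) (h2 : L ≤ L1) : y ≤ A2 * L1 :=
  h1.trans (mul_le_mul_of_nonneg_left h2 hA.le)

lemma q_k {L L1 ρ η : ℝ} (hL : 0 < L) (h : L1 ≤ (1 + ρ) * L) (hρ : ρ ≤ η) : L1 - L ≤ η * L := by
  have := mul_le_mul_of_nonneg_right hρ hL.le
  linarith

lemma q_l {A2 L L2 y h : ℝ} (hA : 0 < A2) (h1 : y ≤ A2 * L) (h2 : L ≤ L2) (hL : 1 ≤ L)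
    (hh : h ≤ 1) : y + h ≤ (A2 + 1) * L2 := by
  have := mul_le_mul_of_nonneg_left h2 hA.le
  linarith

lemma q_m {T T1 η : ℝ} (hη : 0 < η) (hT : 0 < T) (hTT : T < T1) (h : T1 - T ≤ 2 * η * T) :
    T * (T1 - T) ≤ 2 * η * ((T1 + 1) * T) := by
  have e1 : T * (T1 - T) ≤ T * (2 * η * T) := mul_le_mul_of_nonneg_left h hT.le
  have e2 : 2 * η * T * T ≤ 2 * η * T * (T1 + 1) :=
    mul_le_mul_of_nonneg_left (by linarith) (by positivity)
  linarith

lemma q_n {L L2 ρ : ℝ} (hL2 : 0 < L2) (h : L2 ≤ (1 + ρ) * L) (h0 : 0 < ρ) (h4 : ρ ≤ 1 / 4) :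
    L2 ^ 2 ≤ 2 * L ^ 2 := by
  have : L2 ^ 2 ≤ ((1 + ρ) * L) ^ 2 := pow_le_pow_left₀ hL2.le h 2
  have e3 : (1 + ρ) ^ 2 ≤ 2 := by nlinarith
  have e4 : (1 + ρ) ^ 2 * L ^ 2 ≤ 2 * L ^ 2 := mul_le_mul_of_nonneg_right e3 (sq_nonneg L)
  rw [mul_pow] at this
  exact this.trans e4

lemma q_o {s M C : ℝ} (hs0 : 0 < s) (hs1 : s ≤ 1) (h : 0 ≤ M * C) :
    8 * M * C * (s ^ 2 + s) + s * M * C ≤ 17 * M * C * s := by
  have e : s ^ 2 ≤ s := by nlinarith
  have := mul_le_mul_of_nonneg_left e h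
  linarith

lemma q_p {s η A2 : ℝ} (hs0 : 0 < s) (hs1 : s ≤ 1) (h : s ^ 2 = η) (hA : 0 < A2) :
    (A2 + 5) * η + 17 * s ≤ (A2 + 22) * s := by
  have e : s ^ 2 ≤ s := by nlinarith
  have := mul_le_mul_of_nonneg_left (h ▸ e) (by linarith : 0 ≤ A2 + 5)
  linarith

lemma q_r {Q s s0 : ℝ} (hQ : 0 ≤ Q) (h : s ≤ s0) (h0 : 0 ≤ s) : Q * s ≤ (Q + 1) * s0 := by
  have := mul_le_mul_of_nonneg_left h hQ
  linarith

lemma q_s1 {η T : ℝ} (hη : 0 < η) (hT : 0 < T) : (1 + η) * T ≤ (1 + 3 * η / 2) * T := by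
  have := mul_pos hη hT
  linarith

lemma q_s2 {η T : ℝ} (hη : 0 < η) (hT : 0 < T) : (1 + 3 * η / 2) * T ≤ (1 + 2 * η) * T := by
  have := mul_pos hη hT
  linarith

lemma q_s3 {η T T' : ℝ} (hη : 0 < η) (h4 : η ≤ 1 / 4) (hT : 0 < T) (h : T' ≤ (1 + η / 4) * T) :
    (1 + η) * T' ≤ (1 + 3 * η / 2) * T := by
  have e0 : (1 + η) * (1 + η / 4) ≤ 1 + 3 * η / 2 := by nlinarith
  have e : (1 + η) * T' ≤ (1 + η) * ((1 + η / 4) * T) :=
    mul_le_mul_of_nonneg_left h (by linarith)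
  have e2 := mul_le_mul_of_nonneg_right e0 hT.le
  linarith

lemma q_s4 {η T T' : ℝ} (hη : 0 < η) (hT : 0 < T) (h : T ≤ T') :
    (1 + 3 * η / 2) * T ≤ (1 + 2 * η) * T' :=
  (q_s2 hη hT).trans (mul_le_mul_of_nonneg_left h (by linarith))

/-- the main inequality -/
lemma loc {w W : ℝ → ℝ} {M A0 A1 A2 C K A T0 : ℝ} (hw : ∀ α, |w α| ≤ M)
    (hl : ∀ a b, |w a - w b| ≤ M * |a - b|) (h1 : ∀ α, α ≤ A1 → w α = 0)
    (h2 : ∀ α, A2 < α → w α = 0) (hA0 : 0 < A0) (hA01 : A0 < A1) (hA2 : 0 < A2)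
    (hWm : Measurable W) (hW0 : ∀ α, 0 ≤ W α) (hWK : ∀ α, |W α| ≤ K) (hWA : ∀ α, A < |α| → W α = 0)
    (hW1 : ∀ α, A0 ≤ α → α ≤ A2 + 1 → W α = 1)
    (hC : ∀ T : ℝ, T0 ≤ T → ∫ α : ℝ, W α * uT T α ≤ C) (hC0 : 0 ≤ C)
    {η ρ T T1 : ℝ} (hη : 0 < η) (hη4 : η ≤ 1 / 4) (hρ : 0 < ρ) (hρη : ρ ≤ η)
    (hρA : (1 + ρ) * A0 ≤ A1) (hT : T0 ≤ T) (hT3 : 3 ≤ T)
    (hlog : Real.log (2 / η) ≤ ρ * Real.log T)
    (h3 : (1 + η) * T ≤ T1) (h4 : T1 ≤ (1 + 2 * η) * T) :
    |(∫ α : ℝ, w α * uT T1 α) - ∫ α : ℝ, w α * uT T α| ≤ M * C * (A2 + 22) * Real.sqrt η := by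
  have hTT1 : T < T1 := q_a hη (by linarith) h3
  have hT1 : 1 < T := by linarith
  have hT11 : 1 < T1 := by linarith
  have hM : 0 ≤ M := (abs_nonneg _).trans (hw 0)
  set s : ℝ := Real.sqrt η with hs
  have hs0 : 0 < s := Real.sqrt_pos.2 hη
  have hs2 : s ^ 2 = η := Real.sq_sqrt hη.le
  have hs1 : s ≤ 1 := q_b hs0 hs2 hη4
  set T2 : ℝ := (T1 + 1) * T / (T1 - T) with hT2
  have hd : 0 < T1 - T := by linarith
  have hd2 : T1 - T ≤ 2 * η * T := by linarith
  have hd1 : η * T ≤ T1 - T := by linarith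
  have hTT2 : T ≤ T2 := by
    rw [hT2, le_div_iff₀ hd]
    exact q_c (by linarith)
  have hT21 : 1 < T2 := by linarith
  have hT2u : T2 ≤ 2 / η * T := by
    rw [hT2, div_le_iff₀ hd]
    have e : 2 / η * T * (η * T) ≤ 2 / η * T * (T1 - T) := by
      have : 0 ≤ 2 / η * T := by positivity
      exact mul_le_mul_of_nonneg_left hd1 this
    have e2 : 2 / η * T * (η * T) = 2 * T * T := by
      field_simp
    have e3 : T1 + 1 ≤ 2 * T := q_d h4 hη4 hT3
    have e4 : (T1 + 1) * T ≤ 2 * T * T := mul_le_mul_of_nonneg_right e3 (by linarith)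
    linarith
  set L := Real.log T with hL
  set L1 := Real.log T1 with hL1
  set L2 := Real.log T2 with hL2
  have hLp : 1 ≤ L := by
    rw [hL, Real.le_log_iff_exp_le (by linarith)]
    have := Real.exp_one_lt_d9
    linarith
  have hLL1 : L ≤ L1 := Real.log_le_log (by linarith) hTT1.le
  have hLL2 : L ≤ L2 := Real.log_le_log (by linarith) hTT2
  have hL2u : L2 ≤ (1 + ρ) * L := by
    have : L2 ≤ Real.log (2 / η * T) := Real.log_le_log (by linarith) hT2u
    rw [Real.log_mul (by positivity) (by linarith)] at this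
    linarith
  have hL1u : L1 ≤ (1 + ρ) * L := by
    have : L1 ≤ Real.log (2 / η * T) := by
      refine Real.log_le_log (by linarith) (h4.trans ?_)
      have : 1 + 2 * η ≤ 2 / η := by
        rw [le_div_iff₀ hη]
        exact q_e hη hη4
      have hT0' : 0 < T := by linarith
      gcongr
    rw [Real.log_mul (by positivity) (by linarith)] at this
    linarith
  have hLpos : 0 < L := by linarith
  have hL1pos : 0 < L1 := by linarith
  have hL2pos : 0 < L2 := by linarith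
  -- the bounds for the weight W
  have gC := hC T hT
  have gC1 := hC T1 (by linarith)
  have gC2 := hC T2 (by linarith)
  rw [← scale_int hT1] at gC
  rw [← scale_int hT11] at gC1
  rw [← scale_int hT21] at gC2
  rw [← scale_int hT1, ← scale_int hT11]
  rw [← hL] at gC
  rw [← hL1] at gC1
  rw [← hL2] at gC2
  rw [← hL, ← hL1]
  set u : ℝ := T / L ^ 2 with hu
  set u1 : ℝ := T1 / L1 ^ 2 with hu1
  set u2 : ℝ := T2 / L2 ^ 2 with hu2
  have hup : 0 < u := by positivity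
  have hT1p : 0 < T1 := by linarith
  have hT2p : 0 < T2 := by linarith
  have hTp : 0 < T := by linarith
  have hu1p : 0 < u1 := by positivity
  have hu2p : 0 < u2 := by positivity
  -- measurability of w
  have hwm : Measurable w := by
    have : LipschitzWith ⟨M, hM⟩ w := LipschitzWith.of_dist_le_mul fun a b => by
      rw [Real.dist_eq, Real.dist_eq]
      exact hl a b
    exact this.continuous.measurable
  -- integrability
  have iW : ∀ {t : ℝ} (ht : 1 < t), Integrable fun y => W (y / Real.log t) * DT t y ^ 2 := by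
    intro t ht
    have hlt := Real.log_pos ht
    refine DTint ht (hWm.comp (measurable_id.div_const _)) (K := K) (A := A * Real.log t)
      (fun y => hWK _) fun y hy => hWA _ ?_
    rw [abs_div, abs_of_pos hlt, lt_div_iff₀ hlt]
    exact hy
  have iw : ∀ {t l : ℝ} (ht : 1 < t) (hl : 0 < l), Integrable fun y => w (y / l) * DT t y ^ 2 := by
    intro t l ht hl
    refine DTint ht (hwm.comp (measurable_id.div_const _)) (K := M) (A := (|A1| + A2) * l)
      (fun y => hw _) fun y hy => ?_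
    rcases le_total y 0 with hy0 | hy0
    · exact h1 _ ((div_nonpos_of_nonpos_of_nonneg hy0 hl.le).trans (by linarith))
    · refine h2 _ ?_
      rw [abs_of_nonneg hy0] at hy
      rw [lt_div_iff₀ hl]
      exact q_f (abs_nonneg A1) hl hy
  -- pointwise bounds for the weights
  have pW : ∀ a : ℝ, |w a| ≤ M * W a := by
    intro a
    by_cases h : w a = 0
    · rw [h, abs_zero]
      exact mul_nonneg hM (hW0 a)
    · have a1 : A1 < a := by
        by_contra hcon
        exact h (h1 a (not_lt.1 hcon))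
      have a2 : a ≤ A2 := by
        by_contra hcon
        exact h (h2 a (not_le.1 hcon))
      rw [hW1 a (by linarith) (by linarith), mul_one]
      exact hw a
  have hqR : |u1 - u| ≤ 5 * η * u1 := by
    have e : u = u1 * (T / T1 * (L1 / L) ^ 2) := by
      rw [hu, hu1]
      field_simp
    have q1 : T / T1 ≤ 1 := by
      rw [div_le_one hT1p]
      exact hTT1.le
    have q2 : 1 - 2 * η ≤ T / T1 := by
      rw [le_div_iff₀ hT1p]
      exact q_g hη hη4 hTp h4
    have r1 : 1 ≤ L1 / L := by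
      rw [le_div_iff₀ hLpos]
      linarith
    have r2 : L1 / L ≤ 1 + ρ := by
      rw [div_le_iff₀ hLpos]
      exact hL1u
    have R1 : 1 ≤ (L1 / L) ^ 2 := q_h1 r1
    have R2 : (L1 / L) ^ 2 ≤ 1 + 3 * η := q_h2 r1 r2 hρη hη4 hρ
    have hq0 : 0 < T / T1 := by positivity
    have e2 : u1 - u = u1 * (1 - T / T1 * (L1 / L) ^ 2) := by
      rw [mul_sub, mul_one, ← e]
    rw [e2, abs_mul, abs_of_pos hu1p, mul_comm]
    refine mul_le_mul_of_nonneg_right ?_ hu1p.le
    rw [abs_le]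
    exact ⟨q_i1 hη q1 q2 hq0 R1 R2, q_i2 hη q2 hq0 R1⟩
  have pA : ∀ y : ℝ, |u1 * w (y / L1) - u * w (y / L)| ≤ M * (A2 + 5) * η * (u1 * W (y / L1)) := by
    intro y
    by_cases h : w (y / L1) = 0 ∧ w (y / L) = 0
    · rw [h.1, h.2, mul_zero, mul_zero, sub_zero, abs_zero]
      have := hW0 (y / L1)
      positivity
    · have hy : A0 ≤ y / L1 ∧ y / L1 ≤ A2 := by
        by_cases h5 : w (y / L1) = 0
        · have h6 : w (y / L) ≠ 0 := fun h7 => h ⟨h5, h7⟩
          have a1 : A1 < y / L := by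
            by_contra hcon
            exact h6 (h1 _ (not_lt.1 hcon))
          have a2 : y / L ≤ A2 := by
            by_contra hcon
            exact h6 (h2 _ (not_le.1 hcon))
          rw [lt_div_iff₀ hLpos] at a1
          rw [div_le_iff₀ hLpos] at a2
          constructor
          · rw [le_div_iff₀ hL1pos]
            exact q_j1 hA0 hLpos a1 hL1u hρA
          · rw [div_le_iff₀ hL1pos]
            exact q_j2 hA2 a2 hLL1
        · have a1 : A1 < y / L1 := by
            by_contra hcon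
            exact h5 (h1 _ (not_lt.1 hcon))
          have a2 : y / L1 ≤ A2 := by
            by_contra hcon
            exact h5 (h2 _ (not_le.1 hcon))
          exact ⟨by linarith, a2⟩
      rw [hW1 _ hy.1 (by linarith [hy.2]), mul_one]
      have e : u1 * w (y / L1) - u * w (y / L) =
          u1 * (w (y / L1) - w (y / L)) + (u1 - u) * w (y / L) := by ring
      have e3 : |y / L1 - y / L| ≤ A2 * η := by
        have e4 : y / L1 - y / L = -(y / L1 * ((L1 - L) / L)) := by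
          field_simp
          ring
        rw [e4, abs_neg, abs_of_nonneg (by
          have : 0 ≤ L1 - L := by linarith
          have : 0 ≤ y / L1 := by linarith [hy.1]
          positivity)]
        have e5 : (L1 - L) / L ≤ η := by
          rw [div_le_iff₀ hLpos]
          exact q_k hLpos hL1u hρη
        have e6 : 0 ≤ (L1 - L) / L := div_nonneg (by linarith) hLpos.le
        have e7 : 0 ≤ y / L1 := by linarith [hy.1]
        exact mul_le_mul hy.2 e5 e6 hA2.le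
      rw [e]
      refine (abs_add_le _ _).trans ?_
      rw [abs_mul, abs_mul, abs_of_pos hu1p]
      have f1 : |w (y / L1) - w (y / L)| ≤ M * (A2 * η) :=
        (hl _ _).trans (mul_le_mul_of_nonneg_left e3 hM)
      have f2 : |u1 - u| * |w (y / L)| ≤ 5 * η * u1 * M :=
        mul_le_mul hqR (hw _) (abs_nonneg _) (by positivity)
      have f3 : u1 * |w (y / L1) - w (y / L)| ≤ u1 * (M * (A2 * η)) :=
        mul_le_mul_of_nonneg_left f1 hu1p.le
      linarith
  -- Part A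
  have partA : |u1 * (∫ y : ℝ, w (y / L1) * DT T1 y ^ 2) - u * ∫ y : ℝ, w (y / L) * DT T1 y ^ 2| ≤
      M * (A2 + 5) * η * C := by
    have e : u1 * (∫ y : ℝ, w (y / L1) * DT T1 y ^ 2) - u * (∫ y : ℝ, w (y / L) * DT T1 y ^ 2) =
        ∫ y : ℝ, (u1 * w (y / L1) - u * w (y / L)) * DT T1 y ^ 2 := by
      rw [← integral_const_mul, ← integral_const_mul, ← integral_sub
        ((iw hT11 hL1pos).const_mul _) ((iw hT11 hLpos).const_mul _)]
      congr 1
      funext y
      ring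
    rw [e, ← Real.norm_eq_abs]
    have hint : Integrable fun y => M * (A2 + 5) * η * (u1 * (W (y / L1) * DT T1 y ^ 2)) :=
      ((iW hT11).const_mul _).const_mul _
    refine (norm_integral_le_of_norm_le hint (ae_of_all _ fun y => ?_)).trans ?_
    · rw [norm_mul, Real.norm_eq_abs, Real.norm_eq_abs, abs_of_nonneg (sq_nonneg (DT T1 y))]
      have := mul_le_mul_of_nonneg_right (pA y) (sq_nonneg (DT T1 y))
      linarith
    · rw [integral_const_mul, integral_const_mul]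
      exact mul_le_mul_of_nonneg_left gC1 (by positivity)
  -- Part B
  set h : ℝ := Real.log (1 + 1 / T1) with hh
  have hh0 : 0 ≤ h := Real.log_nonneg (by
    have : 0 < 1 / T1 := by positivity
    linarith)
  have hh1 : h ≤ 1 := by
    have a1 : h ≤ 1 + 1 / T1 - 1 := Real.log_le_sub_one_of_pos (by positivity)
    have a2 : 1 / T1 ≤ 1 := by
      rw [div_le_one hT1p]
      exact hT11.le
    linarith
  have pB : ∀ y : ℝ, |w (y / L)| ≤ M * W ((y + h) / L2) := by
    intro y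
    by_cases h0 : w (y / L) = 0
    · rw [h0, abs_zero]
      exact mul_nonneg hM (hW0 _)
    · have a1 : A1 < y / L := by
        by_contra hcon
        exact h0 (h1 _ (not_lt.1 hcon))
      have a2 : y / L ≤ A2 := by
        by_contra hcon
        exact h0 (h2 _ (not_le.1 hcon))
      rw [lt_div_iff₀ hLpos] at a1
      rw [div_le_iff₀ hLpos] at a2
      rw [hW1, mul_one]
      · exact hw _
      · rw [le_div_iff₀ hL2pos]
        exact (q_j1 hA0 hLpos a1 hL2u hρA).trans (by linarith)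
      · rw [div_le_iff₀ hL2pos]
        exact q_l hA2 a2 hLL2 hLp hh1
  have hu2u : u ≤ 4 * η * u2 := by
    rw [hu, hu2]
    have e1 : T ≤ 2 * η * T2 := by
      rw [hT2, ← mul_div_assoc, le_div_iff₀ hd]
      exact q_m hη hTp hTT1 hd2
    have e2 : L2 ^ 2 ≤ 2 * L ^ 2 := q_n hL2pos hL2u hρ (hρη.trans hη4)
    rw [← mul_div_assoc, div_le_div_iff₀ (by positivity) (by positivity)]
    calc T * L2 ^ 2 ≤ (2 * η * T2) * (2 * L ^ 2) := mul_le_mul e1 e2 (by positivity) (by positivity)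
      _ = 4 * η * T2 * L ^ 2 := by ring
  have partB : |u * (∫ y : ℝ, w (y / L) * DT T1 y ^ 2) - u * ∫ y : ℝ, w (y / L) * DT T y ^ 2| ≤
      17 * M * C * s := by
    have e : u * (∫ y : ℝ, w (y / L) * DT T1 y ^ 2) - u * (∫ y : ℝ, w (y / L) * DT T y ^ 2) =
        u * ∫ y : ℝ, w (y / L) * (DT T1 y ^ 2 - DT T y ^ 2) := by
      rw [← mul_sub, ← integral_sub (iw hT11 hLpos) (iw hT1 hLpos)]
      congr 2
      funext y
      ring
    rw [e, abs_mul, abs_of_pos hup]
    have i2 : Integrable fun y => W ((y + h) / L2) * DT T2 (y + h) ^ 2 :=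
      (iW hT21).comp_add_right h
    have e2 : ∫ y : ℝ, W ((y + h) / L2) * DT T2 (y + h) ^ 2 = ∫ y : ℝ, W (y / L2) * DT T2 y ^ 2 :=
      integral_add_right_eq_self (fun y => W (y / L2) * DT T2 y ^ 2) h
    have hint : Integrable fun y => (1 + 1 / s) * (1 + 1 / T1) * M *
        (W ((y + h) / L2) * DT T2 (y + h) ^ 2) + s * M * (W (y / L) * DT T y ^ 2) :=
      (i2.const_mul _).add ((iW hT1).const_mul _)
    have hb := norm_integral_le_of_norm_le hint
      (f := fun y => w (y / L) * (DT T1 y ^ 2 - DT T y ^ 2)) (ae_of_all _ fun y => ?_)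
    · rw [integral_add (i2.const_mul _) ((iW hT1).const_mul _), integral_const_mul,
        integral_const_mul, e2, Real.norm_eq_abs] at hb
      have hb2 := mul_le_mul_of_nonneg_left hb hup.le
      refine hb2.trans ?_
      set I2 := ∫ y : ℝ, W (y / L2) * DT T2 y ^ 2 with hI2
      set I0 := ∫ y : ℝ, W (y / L) * DT T y ^ 2 with hI0
      have hI2p : 0 ≤ I2 := integral_nonneg fun y => mul_nonneg (hW0 _) (sq_nonneg _)
      have g1 : u * I2 ≤ 4 * η * C := by
        calc u * I2 ≤ 4 * η * u2 * I2 := mul_le_mul_of_nonneg_right hu2u hI2p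
          _ = 4 * η * (u2 * I2) := by ring
          _ ≤ 4 * η * C := mul_le_mul_of_nonneg_left gC2 (by positivity)
      have hc2 : 1 + 1 / T1 ≤ 2 := by
        have : 1 / T1 ≤ 1 := by
          rw [div_le_one hT1p]
          exact hT11.le
        linarith
      have hcp : 0 ≤ 1 + 1 / T1 := by positivity
      have hsp : 0 ≤ 1 + 1 / s := by positivity
      have hup2 : 0 ≤ u * I2 := by positivity
      calc u * ((1 + 1 / s) * (1 + 1 / T1) * M * I2 + s * M * I0)
          = (1 + 1 / s) * (1 + 1 / T1) * M * (u * I2) + s * M * (u * I0) := by ring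
        _ ≤ (1 + 1 / s) * 2 * M * (4 * η * C) + s * M * C := by
            gcongr
        _ = 8 * M * C * (s ^ 2 + s) + s * M * C := by
            rw [← hs2]
            field_simp
            ring
        _ ≤ 17 * M * C * s := q_o hs0 hs1 (mul_nonneg hM hC0)
    · rw [norm_mul, Real.norm_eq_abs, Real.norm_eq_abs]
      have k := key hT1 hTT1 y
      rw [← hT2, ← hh] at k
      set D0 := DT T y
      set D1 := DT T1 y
      have g1 : |D1 ^ 2 - D0 ^ 2| ≤ (1 + 1 / s) * (D1 - D0) ^ 2 + s * D0 ^ 2 := by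
        have e3 : D1 ^ 2 - D0 ^ 2 = (D1 - D0) ^ 2 + 2 * (D1 - D0) * D0 := by ring
        have e4 : |2 * (D1 - D0) * D0| ≤ 1 / s * (D1 - D0) ^ 2 + s * D0 ^ 2 := by
          rw [abs_le]
          have q1 : 0 ≤ 1 / s * ((D1 - D0) + s * D0) ^ 2 := by positivity
          have q2 : 0 ≤ 1 / s * ((D1 - D0) - s * D0) ^ 2 := by positivity
          have q3 : 1 / s * ((D1 - D0) + s * D0) ^ 2 =
              1 / s * (D1 - D0) ^ 2 + s * D0 ^ 2 + 2 * (D1 - D0) * D0 := by
            field_simp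
            ring
          have q4 : 1 / s * ((D1 - D0) - s * D0) ^ 2 =
              1 / s * (D1 - D0) ^ 2 + s * D0 ^ 2 - 2 * (D1 - D0) * D0 := by
            field_simp
            ring
          constructor <;> linarith
        rw [e3]
        refine (abs_add_le _ _).trans ?_
        rw [abs_of_nonneg (sq_nonneg (D1 - D0))]
        linarith
      have g2 := pB y
      have g3 := pW (y / L)
      have g4 := abs_nonneg (w (y / L))
      calc |w (y / L)| * |D1 ^ 2 - D0 ^ 2|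
          ≤ |w (y / L)| * ((1 + 1 / s) * (D1 - D0) ^ 2 + s * D0 ^ 2) :=
            mul_le_mul_of_nonneg_left g1 g4
        _ = |w (y / L)| * ((1 + 1 / s) * (D1 - D0) ^ 2) + |w (y / L)| * (s * D0 ^ 2) := by ring
        _ ≤ (M * W ((y + h) / L2)) * ((1 + 1 / s) * (D1 - D0) ^ 2) +
            (M * W (y / L)) * (s * D0 ^ 2) := by
            have z1 : 0 ≤ (1 + 1 / s) * (D1 - D0) ^ 2 := by positivity
            have z2 : 0 ≤ s * D0 ^ 2 := by positivity
            exact add_le_add (mul_le_mul_of_nonneg_right g2 z1) (mul_le_mul_of_nonneg_right g3 z2)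
        _ = _ := by
            rw [k]
            ring
  have hMC : 0 ≤ M * C := mul_nonneg hM hC0
  calc |u1 * (∫ y : ℝ, w (y / L1) * DT T1 y ^ 2) - u * ∫ y : ℝ, w (y / L) * DT T y ^ 2|
      ≤ |u1 * (∫ y : ℝ, w (y / L1) * DT T1 y ^ 2) - u * ∫ y : ℝ, w (y / L) * DT T1 y ^ 2| +
        |u * (∫ y : ℝ, w (y / L) * DT T1 y ^ 2) - u * ∫ y : ℝ, w (y / L) * DT T y ^ 2| :=
        abs_sub_le _ _ _
    _ ≤ M * (A2 + 5) * η * C + 17 * M * C * s := add_le_add partA partB
    _ = M * C * ((A2 + 5) * η + 17 * s) := by ring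
    _ ≤ M * C * ((A2 + 22) * s) := by
        refine mul_le_mul_of_nonneg_left ?_ hMC
        exact q_p hs0 hs1 hs2 hA2
    _ = M * C * (A2 + 22) * s := by ring

theorem main : S_W3 := by
  intro HB w hwS hwA ε hε
  obtain ⟨A1, hA1, h1⟩ := hwA
  obtain ⟨A2, hA2, h2'⟩ := supp hwS
  have h2 : ∀ α, A2 < α → w α = 0 := fun α hα => h2' α (hα.trans_le (le_abs_self α))
  obtain ⟨Cl, hCl⟩ := ContDiff.lipschitzWith_of_hasCompactSupport hwS.cs hwS.sm (by simp)
  obtain ⟨m, hm⟩ := hwS.cont.bounded_above_of_compact_support hwS.cs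
  set M : ℝ := max m Cl with hM
  have hMw : ∀ α, |w α| ≤ M := fun α => (hm α).trans (le_max_left _ _)
  have hMl : ∀ a b, |w a - w b| ≤ M * |a - b| := by
    intro a b
    have := hCl.dist_le_mul a b
    rw [Real.dist_eq, Real.dist_eq] at this
    exact this.trans (mul_le_mul_of_nonneg_right (le_max_right _ _) (abs_nonneg _))
  set B1 : ℝ := (A1 + 1 / 2) / 2 with hB1
  set A0 : ℝ := (A1 + B1) / 2 with hA0
  have hB : 1 / 2 < B1 := by rw [hB1]; linarith
  have hB0 : B1 < A0 := by rw [hA0]; linarith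
  have hA01 : A0 < A1 := by rw [hA0]; linarith
  set W : ℝ → ℝ := fun α => big (A2 + 2) (by linarith) α * sst B1 A0 α with hW
  have hWS : SC W := mulS (big_SC (by linarith)) (sst_sm _ _)
  have hW0 : ∀ α, 0 ≤ W α := fun α => mul_nonneg (big (A2 + 2) (by linarith)).nonneg (sst_nonneg _ _ _)
  have hWz : ∀ α, α ≤ B1 → W α = 0 := fun α hα => by
    simp only [hW]
    rw [sst_zero hB0 hα, mul_zero]
  have hW1 : ∀ α, A0 ≤ α → α ≤ A2 + 1 → W α = 1 := by
    intro α ha hb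
    simp only [hW]
    rw [sst_one hB0 ha, mul_one]
    refine big_one _ ?_
    rw [abs_of_nonneg (by linarith)]
    linarith
  obtain ⟨C', T0', hC'⟩ := HB W hWS hW0 ⟨B1, hB, hWz⟩
  set C : ℝ := max C' 0 with hC
  have hCC : ∀ T : ℝ, T0' ≤ T → ∫ α : ℝ, W α * uT T α ≤ C := fun T hT =>
    (hC' T hT).trans (le_max_left _ _)
  have hC0 : 0 ≤ C := le_max_right _ _
  obtain ⟨κ, hκ, hκW⟩ := supp hWS
  obtain ⟨K, hK⟩ := hWS.cont.bounded_above_of_compact_support hWS.cs
  have hM0 : 0 ≤ M := (abs_nonneg _).trans (hMw 0)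
  set Q : ℝ := M * C * (A2 + 22) with hQ
  have hQ0 : 0 ≤ Q := by positivity
  set s0 : ℝ := ε / (2 * (Q + 1)) with hs0
  have hs0p : 0 < s0 := by positivity
  set η : ℝ := min (1 / 4) (s0 ^ 2) with hη
  have hηp : 0 < η := lt_min (by norm_num) (by positivity)
  have hη4 : η ≤ 1 / 4 := min_le_left _ _
  have hsη : Real.sqrt η ≤ s0 := by
    rw [← Real.sqrt_sq hs0p.le]
    exact Real.sqrt_le_sqrt (min_le_right _ _)
  have hfin : 2 * (Q * Real.sqrt η) ≤ ε := by
    have : Q * Real.sqrt η ≤ (Q + 1) * s0 := q_r hQ0 hsη (Real.sqrt_nonneg η)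
    have e : (Q + 1) * s0 = ε / 2 := by
      rw [hs0]
      field_simp
    linarith
  set ρ : ℝ := min η (A1 / A0 - 1) with hρ
  have hA0p : 0 < A0 := by linarith
  have hρp : 0 < ρ := by
    refine lt_min hηp ?_
    rw [sub_pos, lt_div_iff₀ hA0p]
    linarith
  have hρη : ρ ≤ η := min_le_left _ _
  have hρA : (1 + ρ) * A0 ≤ A1 := by
    have : ρ ≤ A1 / A0 - 1 := min_le_right _ _
    have : 1 + ρ ≤ A1 / A0 := by linarith
    rwa [le_div_iff₀ hA0p] at this
  set T0 : ℝ := max (max T0' 3) (Real.exp (Real.log (2 / η) / ρ)) with hT0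
  have hloc : ∀ T T1 : ℝ, T0 ≤ T → (1 + η) * T ≤ T1 → T1 ≤ (1 + 2 * η) * T →
      |(∫ α : ℝ, w α * uT T1 α) - ∫ α : ℝ, w α * uT T α| ≤ Q * Real.sqrt η := by
    intro T T1 hT hT1 hT1'
    have t1 : T0' ≤ T := ((le_max_left _ _).trans (le_max_left _ _)).trans hT
    have t2 : 3 ≤ T := ((le_max_right _ _).trans (le_max_left _ _)).trans hT
    have t3 : Real.exp (Real.log (2 / η) / ρ) ≤ T := (le_max_right _ _).trans hT
    have t4 : Real.log (2 / η) ≤ ρ * Real.log T := by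
      have := (Real.le_log_iff_exp_le (by linarith)).2 t3
      rw [div_le_iff₀ hρp] at this
      linarith
    exact loc hMw hMl h1 h2 hA0p hA01 hA2 hWS.cont.measurable hW0 hK hκW hW1 hCC hC0 hηp hη4 hρp
      hρη hρA t1 t2 t4 hT1 hT1'
  refine ⟨η / 4, T0, by positivity, fun T hT T' hT' hT'' => ?_⟩
  have hT3 : 3 ≤ T := ((le_max_right _ _).trans (le_max_left _ _)).trans hT
  have hTp : 0 < T := by linarith
  have b1 := hloc T ((1 + 3 * η / 2) * T) hT (q_s1 hηp hTp) (q_s2 hηp hTp)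
  have b2 := hloc T' ((1 + 3 * η / 2) * T) (hT.trans hT') (q_s3 hηp hη4 hTp hT'')
    (q_s4 hηp hTp hT')
  rw [abs_sub_comm] at b2
  have := abs_sub_le (∫ α : ℝ, w α * uT T' α) (∫ α : ℝ, w α * uT ((1 + 3 * η / 2) * T) α)
    (∫ α : ℝ, w α * uT T α)
  linarith

end Pool.Agent.N372.PX3
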